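import Pool.Agent.Q290.SC.Stm

set_option autoImplicit false

/-! Project SC (helper290), jobs CEN and KEY. -/

namespace Pool.Agent.Q238.SC

open Pool.Agent.Q290.SC

variable {g : ℕ}

theorem f_KS {g : ℕ} {q : ℤ} {Q : Type} [Group Q] (f : SpG g →* Q)
    (hf : ∀ (v : VV g) (t : ℤ), q ∣ t → f (T v t) = 1) {S : Finset (Fin g)} {X : SpG g}
    (hX : X ∈ KS q S) : f X = 1 := by
  have h : KS q S ≤ f.ker := by
    rw [KS, Subgroup.closure_le]
    rintro _ ⟨v, t, -, ht, rfl⟩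
    exact hf v t ht
  exact h hX

theorem Fx_univ (M : SpG g) : Fx Finset.univ M := fun j hj => absurd (Finset.mem_univ j) hj

theorem cen : S_IND → S_BLK → S_CEN := by
  intro hI hB g q hq Q _ f hf M hM Y hY
  obtain ⟨k, hk1, hk2⟩ := hY
  obtain ⟨X, hX, hXM⟩ := hI g q hq k Finset.univ (Finset.mem_univ k) M hM (Fx_univ M)
  obtain ⟨a, b, c, d, h, hL, -⟩ := hB g k (X * M) hXM
  have hcomm : Y * (X * M) = (X * M) * Y := by
    rw [hL]
    apply sp_ext_basis
    · intro l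
      rw [ac_mul, ac_mul]
      by_cases hl : l = k
      · subst hl
        rw [hk1, ac_L_e, ac_add, ac_smul, ac_smul, hk1, hk2]
      · have h1 : (ve l : VV g) (Sum.inl k) = 0 := by simp [ve, Ne.symm hl]
        have h2 : (ve l : VV g) (Sum.inr k) = 0 := by simp [ve]
        rw [ac_L_of h h1 h2, ac_L_of h]
        · have e : (ac Y (ve l)) (Sum.inl k) = (ve l : VV g) (Sum.inl k) := by
            rw [co_inl (ac Y (ve l)) k, co_inl (ve l) k, ← om_ac Y (ve l) (vf k), hk2]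
          rw [e, h1]
        · have e : (ac Y (ve l)) (Sum.inr k) = (ve l : VV g) (Sum.inr k) := by
            rw [co_inr (ac Y (ve l)) k, co_inr (ve l) k, ← om_ac Y (ve k) (ve l), hk1]
          rw [e, h2]
    · intro l
      rw [ac_mul, ac_mul]
      by_cases hl : l = k
      · subst hl
        rw [hk2, ac_L_f, ac_add, ac_smul, ac_smul, hk1, hk2]
      · have h1 : (vf l : VV g) (Sum.inl k) = 0 := by simp [vf]
        have h2 : (vf l : VV g) (Sum.inr k) = 0 := by simp [vf, Ne.symm hl]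
        rw [ac_L_of h h1 h2, ac_L_of h]
        · have e : (ac Y (vf l)) (Sum.inl k) = (vf l : VV g) (Sum.inl k) := by
            rw [co_inl (ac Y (vf l)) k, co_inl (vf l) k, ← om_ac Y (vf l) (vf k), hk2]
          rw [e, h1]
        · have e : (ac Y (vf l)) (Sum.inr k) = (vf l : VV g) (Sum.inr k) := by
            rw [co_inr (ac Y (vf l)) k, co_inr (vf l) k, ← om_ac Y (ve k) (vf l), hk1]
          rw [e, h2]
  have hfX : f X = 1 := f_KS f hf hX
  have e1 : f (Y * M * Y⁻¹) = f (Y * (X * M) * Y⁻¹) := by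
    simp only [map_mul, hfX, one_mul]
  rw [e1, hcomm, mul_assoc, mul_inv_cancel, mul_one, map_mul, hfX, one_mul]

/-! ## values of the form on the basis -/

theorem o1 (i : Fin g) : om (vf i) (ve i) = -1 := by rw [om_vf]; simp [ve]
theorem o2 {i j : Fin g} (h : i ≠ j) : om (vf i) (ve j) = 0 := by rw [om_vf]; simp [ve, h]
theorem o3 (i j : Fin g) : om (vf i) (vf j) = 0 := by rw [om_vf]; simp [vf]
theorem o4 (i j : Fin g) : om (ve i) (ve j) = 0 := by rw [om_ve]; simp [ve]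
theorem o5 (i : Fin g) : om (ve i) (vf i) = 1 := by rw [om_ve]; simp [vf]
theorem o6 {i j : Fin g} (h : i ≠ j) : om (ve i) (vf j) = 0 := by rw [om_ve]; simp [vf, h]

section
variable (i j : Fin g) (hij : i ≠ j) (a u w d : ℤ) (h : a * d - u * w = 1)

theorem ac_Lv (y : VV g) : ac (Lv i j hij a u w d h) y =
    y + y (Sum.inl i) • ((a - 1) • ve i + u • ve j) +
      y (Sum.inl j) • (w • ve i + (d - 1) • ve j) +
      y (Sum.inr i) • ((d - 1) • vf i + (-w) • vf j) +
      y (Sum.inr j) • ((-u) • vf i + (a - 1) • vf j) := rfl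

theorem ac_Lv_inv (y : VV g) : ac (Lv i j hij a u w d h)⁻¹ y =
    y + y (Sum.inl i) • ((d - 1) • ve i + (-u) • ve j) +
      y (Sum.inl j) • ((-w) • ve i + (a - 1) • ve j) +
      y (Sum.inr i) • ((a - 1) • vf i + w • vf j) +
      y (Sum.inr j) • (u • vf i + (d - 1) • vf j) := rfl

theorem Lv_Fx {S : Finset (Fin g)} (hi : i ∈ S) (hj : j ∈ S) : Fx S (Lv i j hij a u w d h) := by
  intro l hl
  have hli : i ≠ l := fun h' => hl (h' ▸ hi)
  have hlj : j ≠ l := fun h' => hl (h' ▸ hj)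
  constructor
  · rw [ac_Lv]; simp [ve, hli, hlj]
  · rw [ac_Lv]; simp [vf, hli, hlj]

theorem L_Fx {S : Finset (Fin g)} (hi : i ∈ S) (a b c d : ℤ) (h : a * d - b * c = 1) :
    Fx S (L i a b c d h) := by
  intro l hl
  have hli : i ≠ l := fun h' => hl (h' ▸ hi)
  constructor
  · exact ac_L_of h (by simp [ve, hli]) (by simp [ve])
  · exact ac_L_of h (by simp [vf]) (by simp [vf, hli])

theorem L_Ga {q : ℤ} (a b c d : ℤ) (h : a * d - b * c = 1) (ha : q ∣ a - 1) (hb : q ∣ b)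
    (hc : q ∣ c) (hd : q ∣ d - 1) : L i a b c d h ∈ Ga g q := by
  intro x l
  have e : ac (L i a b c d h) x = x + x (Sum.inl i) • ((a - 1) • ve i + b • vf i) +
      x (Sum.inr i) • (c • ve i + (d - 1) • vf i) := rfl
  rw [e]
  obtain ⟨a', ha⟩ := ha
  obtain ⟨b', hb⟩ := hb
  obtain ⟨c', hc⟩ := hc
  obtain ⟨d', hd⟩ := hd
  simp only [Pi.add_apply, Pi.smul_apply, smul_eq_mul]
  rw [ha, hb, hc, hd]
  exact ⟨x (Sum.inl i) * (a' * (ve i : VV g) l + b' * (vf i : VV g) l) +
    x (Sum.inr i) * (c' * (ve i : VV g) l + d' * (vf i : VV g) l), by ring⟩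

theorem Lv_Ga {q : ℤ} (ha : q ∣ a - 1) (hu : q ∣ u) (hw : q ∣ w) (hd : q ∣ d - 1) :
    Lv i j hij a u w d h ∈ Ga g q := by
  intro x l
  rw [ac_Lv]
  obtain ⟨a', ha⟩ := ha
  obtain ⟨u', hu⟩ := hu
  obtain ⟨w', hw⟩ := hw
  obtain ⟨d', hd⟩ := hd
  simp only [Pi.add_apply, Pi.smul_apply, smul_eq_mul]
  have hu2 : -u = q * (-u') := by rw [hu]; ring
  have hw2 : -w = q * (-w') := by rw [hw]; ring
  rw [hu2, hw2, ha, hd, hu, hw]
  exact ⟨x (Sum.inl i) * (a' * (ve i : VV g) l + u' * (ve j : VV g) l) +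
    x (Sum.inl j) * (w' * (ve i : VV g) l + d' * (ve j : VV g) l) +
    x (Sum.inr i) * (d' * (vf i : VV g) l + (-w') * (vf j : VV g) l) +
    x (Sum.inr j) * ((-u') * (vf i : VV g) l + a' * (vf j : VV g) l), by ring⟩

end

theorem key : S_FIXF → S_BLK → S_KEY := by
  intro hF hB g q Q _ f hf i j hij a b c d u w d' h h' ha hb hc hd hu hw hd'
  have hji : j ≠ i := hij.symm
  set S : Finset (Fin g) := {i, j} with hS
  have hi : i ∈ S := by simp [hS]
  have hj : j ∈ S := by simp [hS]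
  set X := L i a b c d h with hX
  set Y := Lv i j hij a u w d' h' with hY
  set R := E (ve j : VV g) (vf i) (-u) with hR
  set U := E (vf i : VV g) (vf j) (b * w) * T (vf i) (a * b) with hU
  have hRm : R ∈ KS q S := E_mem (sup_ve hj) (sup_vf hi) ((dvd_neg).2 hu)
  have hUm : U ∈ KS q S := mul_mem (E_mem (sup_vf hi) (sup_vf hj) (Dvd.dvd.mul_right hb _))
    (T_mem (sup_vf hi) (Dvd.dvd.mul_left hb _))
  set N := U * (Y⁻¹ * (X * R)) with hN
  have hNF : Fx S N := (KS_Fx hUm).mul ((Lv_Fx i j hij a u w d' h' hi hj).inv.mul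
    ((L_Fx i hi a b c d h).mul (KS_Fx hRm)))
  have hNG : N ∈ Ga g q := mul_mem (KS_Ga hUm) (mul_mem
    (inv_mem (Lv_Ga i j hij a u w d' h' ha hu hw hd')) (mul_mem
      (L_Ga i a b c d h ha hb hc hd) (KS_Ga hRm)))
  have oR : om (ve j) (vf i) = 0 := o6 hji
  have oU : om (vf i) (vf j) = 0 := o3 i j
  -- values
  have r1 : ac R (ve i) = ve i + u • ve j := by
    rw [hR, ac_E oR, o4, o1]; module
  have r2 : ac R (ve j) = ve j := by
    rw [hR, ac_E oR, o4, o2 hij]; module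
  have x1 : ac X (ve j) = ve j := ac_L_of h (by simp [ve, hij]) (by simp [ve])
  have y1 : ac Y⁻¹ (ve i) = d' • ve i + (-u) • ve j := by
    rw [hY, ac_Lv_inv]
    have e1 : (ve i : VV g) (Sum.inl i) = 1 := by simp [ve]
    have e2 : (ve i : VV g) (Sum.inl j) = 0 := by simp [ve, hji]
    have e3 : (ve i : VV g) (Sum.inr i) = 0 := by simp [ve]
    have e4 : (ve i : VV g) (Sum.inr j) = 0 := by simp [ve]
    rw [e1, e2, e3, e4]; module
  have y2 : ac Y⁻¹ (ve j) = (-w) • ve i + a • ve j := by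
    rw [hY, ac_Lv_inv]
    have e1 : (ve j : VV g) (Sum.inl i) = 0 := by simp [ve, hij]
    have e2 : (ve j : VV g) (Sum.inl j) = 1 := by simp [ve]
    have e3 : (ve j : VV g) (Sum.inr i) = 0 := by simp [ve]
    have e4 : (ve j : VV g) (Sum.inr j) = 0 := by simp [ve]
    rw [e1, e2, e3, e4]; module
  have y3 : ac Y⁻¹ (vf i) = a • vf i + w • vf j := by
    rw [hY, ac_Lv_inv]
    have e1 : (vf i : VV g) (Sum.inl i) = 0 := by simp [vf]
    have e2 : (vf i : VV g) (Sum.inl j) = 0 := by simp [vf]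
    have e3 : (vf i : VV g) (Sum.inr i) = 1 := by simp [vf]
    have e4 : (vf i : VV g) (Sum.inr j) = 0 := by simp [vf, hji]
    rw [e1, e2, e3, e4]; module
  have z1 : ac (Y⁻¹ * (X * R)) (ve i) = ve i + (a * b) • vf i + (b * w) • vf j := by
    rw [ac_mul, ac_mul, r1, ac_add, ac_smul, x1, hX, ac_L_e]
    simp only [ac_add, ac_smul]
    rw [y1, y2, y3]
    have e : a • (d' • ve i + -u • ve j) + b • (a • vf i + w • vf j) +
        u • (-w • ve i + a • ve j) =
        (a * d' - u * w) • (ve i : VV g) + (a * b) • vf i + (b * w) • vf j := by module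
    rw [e, h', one_smul]
  have z2 : ac (Y⁻¹ * (X * R)) (ve j) = (-w) • ve i + a • ve j := by
    rw [ac_mul, ac_mul, r2, x1, y2]
  have n1 : ac N (ve i) = ve i := by
    rw [hN, ac_mul, z1, hU, ac_mul, ac_T, ac_E oU]
    simp only [om_add_right, om_smul_right, o1, o2 hji, o3]
    module
  have n2 : ac N (ve j) = (-w) • ve i + a • ve j + (b * w ^ 2) • vf j := by
    rw [hN, ac_mul, z2, hU, ac_mul, ac_T, ac_E oU]
    simp only [om_add_right, om_smul_right, o1, o2 hji, o2 hij, o3]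
    module
  obtain ⟨X', hX', k1, k2, k3⟩ := hF g q S i hi N hNG hNF n1
  have hFN : Fx {j} (X' * N) := by
    intro l hl
    have hlj : l ≠ j := fun h => hl (by rw [h]; exact Finset.mem_singleton_self j)
    by_cases hli : l = i
    · subst hli
      exact ⟨k1, k2⟩
    · have hlS : l ∉ S := by simp [hS, hli, hlj]
      exact ((KS_Fx hX').mul hNF) l hlS
  obtain ⟨a₂, b₂, c₂, d₂, h₂, hL, hdiv⟩ := hB g j (X' * N) hFN
  have hor : om (ve i) (ac N (ve j)) = 0 := by
    conv_lhs => rw [← n1, om_ac, o4]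
  obtain ⟨t, ht⟩ := k3 _ hor
  have hval : ac (X' * N) (ve j) = a₂ • ve j + b₂ • vf j := by rw [hL, ac_L_e]
  rw [ac_mul, ht, n2] at hval
  have ea : a₂ = a := by
    have := congrFun hval (Sum.inl j)
    simp [ve, vf, hji] at this
    exact this.symm
  have eb : b₂ = b * w ^ 2 := by
    have := congrFun hval (Sum.inr j)
    simp [ve, vf] at this
    exact this.symm
  subst ea eb
  have hXG : X' * N ∈ Ga g q := mul_mem (KS_Ga hX') hNG
  obtain ⟨-, -, hc2, hd2⟩ := hdiv q hXG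
  refine ⟨c₂, d₂, h₂, hc2, hd2, ?_⟩
  rw [← hL, hN]
  simp only [map_mul, map_inv, f_KS f hf hX', f_KS f hf hUm, f_KS f hf hRm, one_mul, mul_one]
  rw [mul_inv_cancel_left]

end Pool.Agent.Q238.SC
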